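import Pool.Agent.W202.WA.LocB

/-!
# AS-LOC: the Artin-Schreier normal form on charts
-/

set_option autoImplicit false
set_option linter.unusedVariables false
set_option linter.unusedSectionVars false

universe u

open Polynomial

namespace Pool.Agent.W202.WA

open Pool.Agent.W558 Pool.Agent.W902.WD

theorem main0 : WA_loc.{u} := by
  classical
  intro p _ k E _ _ _ _ _ htr s G _ g Γ hFn f hCA hGA
  have hcharE : CharP E p := charP_of_injective_algebraMap (algebraMap k E).injective p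
  have hgd : ∀ t O, IsPt (s.M.A t) O → ∃ a m, PD p O (s.M.x t) f a m := fun t O hO =>
    exists_pd s.M hO.le (hGA t O hO)
  obtain ⟨N, hN⟩ := exists_N all_fin htr s f hgd
  let n : s.I → ℤ := fun i => -(N i : ℤ)
  -- good functions
  let P : ∀ t, Set (s.M.A t) := fun t => {g | (g : E) ≠ 0 ∧
    ∃ a h, NC p (adj (s.M.A t) (g : E)⁻¹) (s.M.x t) n f a h}
  have hP : ∀ t, Ideal.span (P t) = ⊤ := by
    intro t
    have hsm := (s.sf t).sm
    by_contra hne
    obtain ⟨m, hm, hle⟩ := Ideal.exists_le_maximal _ hne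
    have hO := isPt_locAt (hq := hm.isPrime) hm
    set O := locAt (s.M.A t) m hm.isPrime with hOdef
    obtain ⟨a, mm, hpd⟩ := hgd t O hO
    obtain ⟨g', hg', hg0, hgi, h, hNC⟩ := nc_pt p hO (s.M.xA t) (s.M.x0 t) hpd
      (fun i hi => hN i t O a mm hO hi hpd)
    have h1 : (⟨g', hg'⟩ : s.M.A t) ∈ m :=
      hle (Ideal.subset_span ⟨hg0, a, h, hNC⟩)
    have h2 : NU O g' := (NU_locAt (a := (⟨g', hg'⟩ : s.M.A t)) (hq := hm.isPrime)).2 h1
    exact not_NU_of_inv hg0 hgi h2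
  have hfin : ∀ t, ∃ F : Finset (s.M.A t), (F : Set (s.M.A t)) ⊆ P t ∧
      Ideal.span (F : Set (s.M.A t)) = ⊤ := fun t =>
    (Ideal.span_eq_top_iff_finite (P t)).1 (hP t)
  choose F hFP hFs using hfin
  have hFne : ∀ t, 0 < (F t).card := by
    intro t
    rw [Finset.card_pos]
    by_contra h
    rw [Finset.not_nonempty_iff_eq_empty] at h
    have h1 := hFs t
    rw [h, Finset.coe_empty, Ideal.span_empty] at h1
    exact bot_ne_top h1
  let J : Type := ∀ t, Fin (F t).card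
  let hf : s.T → J → E := fun t b => (((F t).equivFin.symm (b t) : F t) : s.M.A t)
  have hfmem : ∀ t b, hf t b ∈ s.M.A t := fun t b => (((F t).equivFin.symm (b t) : F t) : s.M.A t).2
  have hfP : ∀ t (b : J), (((F t).equivFin.symm (b t) : F t) : s.M.A t) ∈ P t := fun t b =>
    hFP t ((F t).equivFin.symm (b t)).2
  have hsurj : ∀ t (y : s.M.A t), y ∈ F t → ∃ b : J, hf t b = y := by
    intro t y hy
    let b : J := Function.update (fun t => ⟨0, hFne t⟩) t ((F t).equivFin ⟨y, hy⟩)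
    have hb : b t = (F t).equivFin ⟨y, hy⟩ := Function.update_self _ _ _
    refine ⟨b, ?_⟩
    change ((((F t).equivFin.symm (b t) : F t) : s.M.A t) : E) = y
    rw [hb, Equiv.symm_apply_apply]
  obtain ⟨M', hA, hx, N', hH⟩ := exists_refine s.M hf hfmem (fun t b => (hfP t b).1) (by
    intro t V hV
    obtain ⟨y, hy, hy0, hyi⟩ := cover (F t : Set (s.M.A t)) (hFs t) V hV
    obtain ⟨b, hb⟩ := hsurj t y hy
    exact ⟨b, by rw [hb]; exact hyi⟩)
  have hA' : ∀ q, M'.A q = adj (s.M.A q.1) (hf q.1 q.2)⁻¹ := fun q => by rw [hA]; rfl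
  have hx' : ∀ q, M'.x q = s.M.x q.1 := fun q => by rw [hx]
  choose a h hNC using fun q : s.T × J => (hfP q.1 q.2).2
  have hNC' : ∀ q, NC p (M'.A q) (M'.x q) n f (a q) (h q) := by
    intro q
    rw [hA', hx']
    exact hNC q
  have hle : ∀ q, s.M.A q.1 ≤ M'.A q := fun q => by
    rw [hA']
    exact le_adj _ _
  refine ⟨s.T × J, s.I, inferInstance, inferInstance, M', Γ, n, a, h, ?_, ⟨?_, ?_, ?_, ?_⟩, ?_⟩
  · intro b q
    obtain ⟨w, hw0, hw, hwi, h1⟩ := hFn b q.1
    refine ⟨w, hw0, hle q hw, hle q hwi, ?_⟩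
    rw [hx']
    exact h1
  · intro i
    change -(N i : ℤ) ≤ 0
    omega
  · exact fun q => (hNC' q).1
  · exact fun q => (hNC' q).2.1
  · intro q κ _ _ φ hφ
    exact NC.ln (M'.x0 q) (M'.xA q) (hNC' q) (hNC' q).1 κ φ hφ
  · intro q z
    obtain ⟨c, hc, d, hd, hd0, h1⟩ := (s.sf q.1).fr z
    exact ⟨c, hle q hc, d, hle q hd, hd0, h1⟩

theorem main (_hwb : WA_wb.{u}) (_hty : WD_ty.{u}) (_hpo : WA_po.{u}) : WA_loc.{u} := main0

end Pool.Agent.W202.WA
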