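import Pool.Agent.W902.WD.Loc
import Pool.Agent.W558.WA.Stms

/-!
# AS-LOC, part A: the conductor along a divisor
-/

set_option autoImplicit false
set_option linter.unusedVariables false
set_option linter.unusedSectionVars false

universe u

open Polynomial

namespace Pool.Agent.W202.WA

open Pool.Agent.W558 Pool.Agent.W902.WD

section

variable {k E : Type u} [Field k] [Field E] [Algebra k E]

/-- `N` is a conductor of `f` along the divisor `W` with the uniformizer `x`. -/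
def Cd (p : ℕ) (W : Subalgebra k E) (x f : E) (N : ℕ) : Prop :=
  ∃ a : E, (f - (a ^ p - a)) * x ^ N ∈ W ∧ (N = 0 ∨ ∃ θ : Derivation k E E,
    (∀ w ∈ W, θ w ∈ W) ∧ (∃ c ∈ W, θ x = c * x) ∧ θ (f - (a ^ p - a)) * x ^ N ∈ W ∧
    ¬ NU W (θ (f - (a ^ p - a)) * x ^ N))

lemma Cd.change {p : ℕ} {W : Subalgebra k E} {x y u f : E} {N : ℕ} (h : Cd p W x f N)
    (hu : u ∈ W) (hu0 : u ≠ 0) (hui : u⁻¹ ∈ W) (hy : y = u * x) : Cd p W y f N := by
  obtain ⟨a, h1, h2⟩ := h
  have hmul : ∀ z, z * y ^ N = u ^ N * (z * x ^ N) := by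
    intro z
    rw [hy, mul_pow]; ring
  refine ⟨a, ?_, ?_⟩
  · rw [hmul]
    exact W.mul_mem (W.pow_mem hu N) h1
  · rcases h2 with h2 | ⟨θ, h3, ⟨c, hc, h4⟩, h5, h6⟩
    · exact Or.inl h2
    · refine Or.inr ⟨θ, h3, ⟨θ u * u⁻¹ + c, W.add_mem (W.mul_mem (h3 u hu) hui) hc, ?_⟩, ?_, ?_⟩
      · rw [hy, Derivation.leibniz, h4]
        simp only [smul_eq_mul]
        field_simp
        ring
      · rw [hmul]
        exact W.mul_mem (W.pow_mem hu N) h5
      · rw [hmul]
        refine not_NU_mul (W.pow_mem hu N) h5 ?_ h6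
        refine not_NU_of_inv (pow_ne_zero N hu0) ?_
        rw [← inv_pow]
        exact W.pow_mem hui N

/-- negative powers of a nonunit are not regular -/
lemma zpow_nonneg_of_mem {W : Subalgebra k E} {x : E} (hx : NU W x) (hx0 : x ≠ 0) {m : ℤ}
    (h : x ^ m ∈ W) : 0 ≤ m := by
  by_contra hm
  push Not at hm
  obtain ⟨q, hq⟩ : ∃ q : ℕ, m = -((q : ℤ) + 1) := ⟨(-m - 1).toNat, by omega⟩
  have h1 : x * (x ^ q * x ^ m) = 1 := by
    rw [hq, zpow_neg, ← mul_assoc, ← pow_succ']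
    have : x ^ ((q : ℤ) + 1) = x ^ (q + 1) := by
      rw [← zpow_natCast]; push_cast; rfl
    rw [this]
    exact mul_inv_cancel₀ (pow_ne_zero _ hx0)
  exact hx.2 _ (W.mul_mem (W.pow_mem hx.mem q) h) h1

lemma NU_zpow {W : Subalgebra k E} {x : E} (hx : NU W x) (hx0 : x ≠ 0) {m : ℤ} (hm : 1 ≤ m) :
    NU W (x ^ m) := by
  obtain ⟨q, hq⟩ : ∃ q : ℕ, m = (q : ℤ) + 1 := ⟨(m - 1).toNat, by omega⟩
  have h1 : x ^ m = x * x ^ q := by
    rw [hq, ← pow_succ', ← zpow_natCast]; push_cast; rfl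
  rw [h1]
  exact hx.mul_right (W.pow_mem hx.mem q)

/-- The conductor is unique. -/
lemma Cd.not_lt {p : ℕ} [Fact p.Prime] [CharP E p] {W : Subalgebra k E} {x f : E}
    (hloc : ∀ a b, NU W a → NU W b → NU W (a + b)) (hx : NU W x) (hx0 : x ≠ 0)
    (hexp : ∀ g : E, g ≠ 0 → ∃ n : ℤ, g * x ^ (-n) ∈ W ∧ (g * x ^ (-n))⁻¹ ∈ W)
    {N' N : ℕ} (h' : Cd p W x f N') (h : Cd p W x f N) : ¬ N' < N := by
  intro hlt
  obtain ⟨a', h1', -⟩ := h'
  obtain ⟨a, h1, h2⟩ := h
  rcases h2 with h2 | ⟨θ, h3, ⟨c, hc, h4⟩, h5, h6⟩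
  · omega
  have hp2 := (Fact.out : p.Prime).two_le
  set b : E := a' - a with hb
  have hsub : f - (a ^ p - a) = (f - (a' ^ p - a')) + (b ^ p - b) := by
    rw [hb, sub_pow_char]; ring
  -- claim 1
  set w' := (f - (a' ^ p - a')) * x ^ N' with hw'
  have hxN' := pow_ne_zero N' hx0
  obtain ⟨e, he⟩ : ∃ e, N = N' + 1 + e := ⟨N - N' - 1, by omega⟩
  have hθ' : θ (f - (a' ^ p - a')) * x ^ N' ∈ W := by
    have e1 : θ w' = θ (f - (a' ^ p - a')) * x ^ N' + (N' : E) * c * w' := by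
      rw [hw', Derivation.leibniz]
      have e2 := log_zpow θ hx0 h4 (N' : ℤ)
      rw [zpow_natCast] at e2
      rw [e2]
      simp only [smul_eq_mul]
      push_cast
      ring
    have e3 : θ (f - (a' ^ p - a')) * x ^ N' = θ w' - (N' : E) * c * w' := by rw [e1]; ring
    rw [e3]
    exact W.sub_mem (h3 _ h1') (W.mul_mem (W.mul_mem (natCast_mem W N') hc) h1')
  have c1 : NU W (θ (f - (a' ^ p - a')) * x ^ N) := by
    have e1 : θ (f - (a' ^ p - a')) * x ^ N =
        x * (x ^ e * (θ (f - (a' ^ p - a')) * x ^ N')) := by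
      rw [he, pow_add, pow_add, pow_one]; ring
    rw [e1]
    exact hx.mul_right (W.mul_mem (W.pow_mem hx.mem e) hθ')
  -- claim 2
  have hbN : (b ^ p - b) * x ^ N ∈ W := by
    have e1 : (b ^ p - b) * x ^ N = (f - (a ^ p - a)) * x ^ N - w' * (x * x ^ e) := by
      rw [hsub, hw', he, pow_add, pow_add, pow_one]; ring
    rw [e1]
    exact W.sub_mem h1 (W.mul_mem h1' (W.mul_mem hx.mem (W.pow_mem hx.mem e)))
  have c2 : NU W (θ b * x ^ N) := by
    by_cases hb0 : b = 0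
    · rw [hb0, map_zero, zero_mul]
      exact NU.zero
    obtain ⟨n, hu, hui⟩ := hexp b hb0
    set v := b * x ^ (-n) with hv
    have hxn := zpow_ne_zero n hx0
    have hv0 : v ≠ 0 := mul_ne_zero hb0 (zpow_ne_zero _ hx0)
    have hbv : b = v * x ^ n := by
      rw [hv, zpow_neg]; field_simp
    have hnN : 0 < n + N := by
      by_contra hcon
      push Not at hcon
      have hn0 : n < 0 := by omega
      -- the unit
      set z := (v⁻¹) ^ (p - 1) * x ^ (-n * ((p : ℤ) - 1)) with hz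
      have hzN : NU W z := by
        refine NU.mul_left (NU_zpow hx hx0 ?_) (W.pow_mem hui _)
        nlinarith
      have hε : ¬ NU W (1 - z) := by
        intro h7
        have h8 := hloc _ _ h7 hzN
        rw [sub_add_cancel] at h8
        exact not_NU_one h8
      have hεW : 1 - z ∈ W := W.sub_mem W.one_mem hzN.mem
      obtain ⟨hε0, hεi⟩ := (not_NU_iff hεW).1 hε
      have e1 : (b ^ p - b) * x ^ N = v ^ p * (1 - z) * x ^ ((p : ℤ) * n + N) := by
        obtain ⟨q, hq⟩ : ∃ q, p = q + 1 := ⟨p - 1, by omega⟩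
        have e2 : x ^ ((p : ℤ) * n + N) = (x ^ n) ^ p * x ^ N := by
          rw [zpow_add₀ hx0, zpow_natCast, mul_comm (p : ℤ) n, zpow_mul, zpow_natCast]
        have e3 : x ^ (-n * ((p : ℤ) - 1)) = ((x ^ n) ^ q)⁻¹ := by
          rw [hq]
          push_cast
          rw [add_sub_cancel_right, neg_mul, zpow_neg, zpow_mul, zpow_natCast]
        rw [e2, hz, e3, hbv, hq]
        have : q + 1 - 1 = q := by omega
        rw [this, inv_pow]
        have hvq := pow_ne_zero q hv0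
        have hxq := pow_ne_zero q hxn
        field_simp
        ring
      have h7 : x ^ ((p : ℤ) * n + N) ∈ W := by
        have e2 : x ^ ((p : ℤ) * n + N) = (v⁻¹) ^ p * (1 - z)⁻¹ * ((b ^ p - b) * x ^ N) := by
          rw [e1, inv_pow]
          have hvp := pow_ne_zero p hv0
          field_simp
        rw [e2]
        exact W.mul_mem (W.mul_mem (W.pow_mem hui p) hεi) hbN
      have h8 := zpow_nonneg_of_mem hx hx0 h7
      have hN1 : (1 : ℤ) ≤ N := by omega
      have hp2' : (2 : ℤ) ≤ p := by exact_mod_cast hp2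
      nlinarith
    have e1 : θ b * x ^ N = x ^ (n + (N : ℤ)) * (θ v + (n : E) * c * v) := by
      have e2 : θ b = x ^ n * (θ v + (n : E) * c * v) := by
        conv_lhs => rw [hbv]
        rw [Derivation.leibniz, log_zpow θ hx0 h4 n]
        simp only [smul_eq_mul]
        ring
      rw [e2, zpow_add₀ hx0, zpow_natCast]
      ring
    rw [e1]
    refine (NU_zpow hx hx0 (by omega)).mul_right ?_
    exact W.add_mem (h3 v hu) (W.mul_mem (W.mul_mem (intCast_mem W n) hc) hu)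
  have hfin : θ (f - (a ^ p - a)) * x ^ N =
      θ (f - (a' ^ p - a')) * x ^ N + -(θ b * x ^ N) := by
    have e1 : θ (b ^ p) = 0 := by
      rw [Derivation.leibniz_pow, nsmul_eq_mul, CharP.cast_eq_zero, zero_mul]
    rw [hsub, map_add θ (f - (a' ^ p - a')) (b ^ p - b), map_sub θ (b ^ p) b, e1]
    ring
  rw [hfin] at h6
  exact h6 (hloc _ _ c1 c2.neg)

lemma Cd.unique {p : ℕ} [Fact p.Prime] [CharP E p] {W : Subalgebra k E} {x f : E}
    (hloc : ∀ a b, NU W a → NU W b → NU W (a + b)) (hx : NU W x) (hx0 : x ≠ 0)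
    (hexp : ∀ g : E, g ≠ 0 → ∃ n : ℤ, g * x ^ (-n) ∈ W ∧ (g * x ^ (-n))⁻¹ ∈ W)
    {N' N : ℕ} (h' : Cd p W x f N') (h : Cd p W x f N) : N' = N := by
  have h1 := Cd.not_lt hloc hx hx0 hexp h' h
  have h2 := Cd.not_lt hloc hx hx0 hexp h h'
  omega

end

end Pool.Agent.W202.WA
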