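import Pool.Agent.W202.WA.LocA

/-!
# AS-LOC, part B: the conductors of the components and the normal form at a point
-/

set_option autoImplicit false
set_option linter.unusedVariables false
set_option linter.unusedSectionVars false

universe u

open Polynomial

namespace Pool.Agent.W202.WA

open Pool.Agent.W558 Pool.Agent.W902.WD

section

variable {k E : Type u} [Field k] [Field E] [Algebra k E]

/-- different components through a point do not contain each other -/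
lemma other (hfin : S_fin.{u}) [PerfectField k] (htr : Algebra.trdeg k E = 2) (s : SM k E)
    {t : s.T} {i j : s.I} (hV : IsDv (s.M.A t) (s.W i)) (hi : NU (s.W i) (s.M.x t i))
    (hp : ∀ a ∈ s.M.A t, NU (s.W i) a → ∃ b ∈ s.M.A t, a = s.M.x t i * b) (hj : j ≠ i) :
    ¬ NU (s.W i) (s.M.x t j) := by
  intro hn
  obtain ⟨c, hc, h7⟩ := hp (s.M.x t j) (s.M.xA t j) hn
  have hl := isLocalRing_of_loc hV.loc
  let L := IsLocalRing.ResidueField (s.W i)
  let φ : s.M.A t →ₐ[k] L :=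
    (IsScalarTower.toAlgHom k (s.W i) L).comp (Subalgebra.inclusion hV.le)
  have hφ : ∀ a : s.M.A t, φ a = 0 ↔ NU (s.W i) a := fun a => by
    change IsLocalRing.residue (s.W i) ⟨a, hV.le a.2⟩ = 0 ↔ _
    rw [residue_eq_zero_NU]
  obtain ⟨D, hD1, hD2⟩ := s.M.snc t L φ j (s.M.xA t j) ((hφ _).2 hn)
  have hD3 := hD2 i (s.M.xA t i) hj.symm ((hφ _).2 hi)
  have h8 : (⟨s.M.x t j, s.M.xA t j⟩ : s.M.A t) = ⟨s.M.x t i, s.M.xA t i⟩ * ⟨c, hc⟩ :=
    Subtype.ext h7
  rw [h8, D.leib, hD3, (hφ ⟨s.M.x t i, s.M.xA t i⟩).2 hi, zero_mul, mul_zero,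
    add_zero] at hD1
  exact zero_ne_one hD1

/-- elements of the monoid of the boundary are units times monomials -/
lemma closure_bdy {T I : Type} [Fintype I] (M : LM (⊥ : Subalgebra k E) ⊤ T I)
    {O : Subalgebra k E} {t : T} (ht : M.A t ≤ O) {z : E}
    (hz : z ∈ Submonoid.closure (bdy M O)) :
    ∃ m : I → ℕ, ∃ w ∈ O, w ≠ 0 ∧ w⁻¹ ∈ O ∧ z = w * ∏ i, M.x t i ^ m i ∧
      ∀ i, ¬ NU O (M.x t i) → m i = 0 := by
  classical
  induction hz using Submonoid.closure_induction with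
  | mem z hz =>
    obtain ⟨t', i, ht', hi, w, hw, hw0, hwi, rfl⟩ := hz
    refine ⟨Pi.single i 1, w * (M.x t' i / M.x t i), O.mul_mem hw (M.ratio ht ht' i),
      mul_ne_zero hw0 (div_ne_zero (M.x0 t' i) (M.x0 t i)), ?_, ?_, ?_⟩
    · rw [mul_inv, inv_div]
      exact O.mul_mem hwi (M.ratio ht' ht i)
    · have h1 : ∏ j, M.x t j ^ ((Pi.single i 1 : I → ℕ) j) = M.x t i := by
        rw [Finset.prod_eq_single i]
        · rw [Pi.single_eq_same, pow_one]
        · intro j _ hj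
          rw [Pi.single_eq_of_ne hj, pow_zero]
        · intro h; exact absurd (Finset.mem_univ i) h
      rw [h1]
      have := M.x0 t i
      field_simp
    · intro j hj
      refine Pi.single_eq_of_ne ?_ _
      rintro rfl
      exact hj ((M.nu_iff ht ht' j).2 hi)
  | one =>
    exact ⟨0, 1, O.one_mem, one_ne_zero, by rw [inv_one]; exact O.one_mem, by simp,
      fun i _ => rfl⟩
  | mul a b _ _ ha hb =>
    obtain ⟨m, w, hw, hw0, hwi, rfl, hm⟩ := ha
    obtain ⟨m', w', hw', hw0', hwi', rfl, hm'⟩ := hb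
    refine ⟨m + m', w * w', O.mul_mem hw hw', mul_ne_zero hw0 hw0', ?_, ?_, ?_⟩
    · rw [mul_inv]
      exact O.mul_mem hwi hwi'
    · simp only [Pi.add_apply, pow_add, Finset.prod_mul_distrib]
      ring
    · intro i hi
      rw [Pi.add_apply, hm i hi, hm' i hi]

/-- the data at a good point -/
def PD (p : ℕ) (O : Subalgebra k E) {I : Type} [Fintype I] (x : I → E) (f a : E) (m : I → ℕ) :
    Prop :=
  (∀ i, ¬ NU O (x i) → m i = 0) ∧ (f - (a ^ p - a)) * ∏ i, x i ^ m i ∈ O ∧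
    ((∀ i, m i = 0) ∨ ∃ θ ∈ ThW O x, θ (f - (a ^ p - a)) * ∏ i, x i ^ m i ∈ O ∧
      ¬ NU O (θ (f - (a ^ p - a)) * ∏ i, x i ^ m i))

lemma exists_pd {p : ℕ} {T I : Type} [Fintype I] (M : LM (⊥ : Subalgebra k E) ⊤ T I)
    {O : Subalgebra k E} {t : T} (ht : M.A t ≤ O) {f : E} (h : GA p O (bdy M O) f) :
    ∃ a m, PD p O (M.x t) f a m := by
  obtain ⟨a, z, hz, h1, h2⟩ := h
  rcases h2 with h2 | ⟨θ, hθ, h3, h4⟩
  · refine ⟨a, 0, fun i _ => rfl, ?_, Or.inl fun i => rfl⟩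
    simpa using h2
  · obtain ⟨m, w, hw, hw0, hwi, rfl, hm⟩ := closure_bdy M ht hz
    have e : ∀ g : E, g * ∏ i, M.x t i ^ m i = (g * (w * ∏ i, M.x t i ^ m i)) * w⁻¹ := by
      intro g; field_simp
    refine ⟨a, m, hm, ?_, Or.inr ⟨θ, (Th_iff M ht θ).1 hθ, ?_, ?_⟩⟩
    · rw [e]
      exact O.mul_mem h1 hwi
    · rw [e]
      exact O.mul_mem h3 hwi
    · rw [e]
      refine not_NU_mul h3 hwi h4 (not_NU_of_inv (inv_ne_zero hw0) ?_)
      rw [inv_inv]
      exact hw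

/-- the exponents at a good point are conductors -/
lemma PD.cd (hfin : S_fin.{u}) [PerfectField k] (htr : Algebra.trdeg k E = 2) {p : ℕ}
    (s : SM k E) {t : s.T} {O : Subalgebra k E} (hO : IsPt (s.M.A t) O) {i : s.I}
    (hi : NU O (s.M.x t i)) {f a : E} {m : s.I → ℕ} (h : PD p O (s.M.x t) f a m) :
    Cd p (s.W i) (s.M.x t i) f (m i) := by
  classical
  obtain ⟨hd, hnu, hp⟩ := irr_of_NU s hO.le hi
  have hOW : O ≤ s.W i := pt_le hO hp hd.le hi
  obtain ⟨h1, h2, h3⟩ := h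
  set P := ∏ j ∈ Finset.univ.erase i, s.M.x t j ^ m j with hP
  have hunit : ∀ j ∈ Finset.univ.erase i, (s.M.x t j)⁻¹ ∈ s.W i := fun j hj =>
    ((not_NU_iff (hd.le (s.M.xA t j))).1
      (other hfin htr s hd hnu hp (Finset.ne_of_mem_erase hj))).2
  have hPW : P ∈ s.W i := (s.W i).prod_mem fun j _ => (s.W i).pow_mem (hd.le (s.M.xA t j)) _
  have hPi : P⁻¹ ∈ s.W i := by
    rw [hP, ← Finset.prod_inv_distrib]
    refine (s.W i).prod_mem fun j hj => ?_
    rw [← inv_pow]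
    exact (s.W i).pow_mem (hunit j hj) _
  have hP0 : P ≠ 0 := Finset.prod_ne_zero_iff.2 fun j _ => pow_ne_zero _ (s.M.x0 t j)
  have e : ∀ g : E, g * s.M.x t i ^ m i = (g * ∏ j, s.M.x t j ^ m j) * P⁻¹ := by
    intro g
    rw [← Finset.mul_prod_erase Finset.univ (fun j => s.M.x t j ^ m j) (Finset.mem_univ i), ← hP]
    field_simp
  refine ⟨a, ?_, ?_⟩
  · rw [e]
    exact (s.W i).mul_mem (hOW h2) hPi
  · rcases h3 with h3 | ⟨θ, hθ, h4, h5⟩
    · exact Or.inl (h3 i)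
    · have hθW : θ ∈ ThW (s.W i) (s.M.x t) := ThW.mono hd.fr' hO.le hOW hθ
      obtain ⟨c, hc, hcx⟩ := hθW.2 i
      refine Or.inr ⟨θ, hθW.1, ⟨c, hc, hcx⟩, ?_, ?_⟩
      · rw [e]
        exact (s.W i).mul_mem (hOW h4) hPi
      · rw [e]
        have h6 := (not_NU_iff h4).1 h5
        refine not_NU_mul (hOW h4) hPi (not_NU_of_inv h6.1 (hOW h6.2))
          (not_NU_of_inv (inv_ne_zero hP0) ?_)
        rw [inv_inv]
        exact hPW

/-- the conductors of the components -/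
lemma exists_N (hfin : S_fin.{u}) [PerfectField k] (htr : Algebra.trdeg k E = 2) {p : ℕ}
    [Fact p.Prime] [CharP E p] (s : SM k E) (f : E)
    (hgd : ∀ t O, IsPt (s.M.A t) O → ∃ a m, PD p O (s.M.x t) f a m) :
    ∃ N : s.I → ℕ, ∀ i t O a m, IsPt (s.M.A t) O → NU O (s.M.x t i) →
      PD p O (s.M.x t) f a m → m i = N i := by
  have key : ∀ i, ∃ N : ℕ, ∀ t O a m, IsPt (s.M.A t) O → NU O (s.M.x t i) →
      PD p O (s.M.x t) f a m → m i = N := by
    intro i
    by_cases h : ∃ t O, IsPt (s.M.A t) O ∧ NU O (s.M.x t i)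
    · obtain ⟨t0, O0, hO0, hx0⟩ := h
      obtain ⟨a0, m0, hpd0⟩ := hgd t0 O0 hO0
      obtain ⟨hd, hnu, hp⟩ := irr_of_NU s hO0.le hx0
      refine ⟨m0 i, ?_⟩
      intro t O a m hO hx hpd
      have c0 := PD.cd hfin htr s hO0 hx0 hpd0
      have c1 := PD.cd hfin htr s hO hx hpd
      obtain ⟨hd', hnu', hp'⟩ := irr_of_NU s hO.le hx
      have h6 := s.M.ratio hd.le hd'.le i
      have h7 := s.M.ratio hd'.le hd.le i
      have c2 : Cd p (s.W i) (s.M.x t0 i) f (m i) := by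
        refine c1.change (u := s.M.x t0 i / s.M.x t i) h7
          (div_ne_zero (s.M.x0 t0 i) (s.M.x0 t i)) ?_ ?_
        · rw [inv_div]; exact h6
        · have := s.M.x0 t i
          field_simp
      exact Cd.unique hd.loc hnu (s.M.x0 t0 i)
        (fun g hg => Pool.Agent.W440.RS.exists_exp (s.sf t0) hd.le (s.M.xA t0 i)
          (s.M.x0 t0 i) hnu hp hg) c2 c0
    · exact ⟨0, fun t O a m hO hx _ => absurd ⟨t, O, hO, hx⟩ h⟩
  choose N hN using key
  exact ⟨N, hN⟩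

/-- Artin-Schreier normal form on a chart -/
def NC (p : ℕ) (B : Subalgebra k E) {I : Type} [Fintype I] (x : I → E) (n : I → ℤ) (f a h : E) :
    Prop :=
  h ∈ B ∧ f = a ^ p - a + (∏ i, x i ^ n i) * h ∧
    ((∀ i, n i < 0 → (x i)⁻¹ ∈ B) ∨ ∃ θ, NF p B x n (f - (a ^ p - a)) 0 h θ)

/-- the normal form around a point -/
lemma nc_pt (p : ℕ) [Fact p.Prime] {A O : Subalgebra k E} [Algebra.FiniteType k A]
    (hO : IsPt A O) {I : Type} [Fintype I] {x : I → E} (hxA : ∀ i, x i ∈ A)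
    (hx0 : ∀ i, x i ≠ 0) {f a : E} {m N : I → ℕ} (h : PD p O x f a m)
    (hN : ∀ i, NU O (x i) → m i = N i) :
    ∃ g ∈ A, g ≠ 0 ∧ g⁻¹ ∈ O ∧ ∃ h', NC p (adj A g⁻¹) x (fun i => -(N i : ℤ)) f a h' := by
  classical
  obtain ⟨h1, h2, h3⟩ := h
  have hp0 : p ≠ 0 := (Fact.out : p.Prime).ne_zero
  -- the comparison of the monomials
  let r : I → E := fun i => if NU O (x i) then 1 else x i ^ N i
  have hr : ∀ i, x i ^ N i = x i ^ m i * r i := by
    intro i
    by_cases hi : NU O (x i)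
    · simp only [r, if_pos hi, mul_one, hN i hi]
    · simp only [r, if_neg hi, h1 i hi, pow_zero, one_mul]
  have hrO : ∀ i, r i ∈ O ∧ r i ≠ 0 ∧ (r i)⁻¹ ∈ O := by
    intro i
    by_cases hi : NU O (x i)
    · simp only [r, if_pos hi, inv_one]
      exact ⟨O.one_mem, one_ne_zero, O.one_mem⟩
    · simp only [r, if_neg hi]
      refine ⟨O.pow_mem (hO.le (hxA i)) _, pow_ne_zero _ (hx0 i), ?_⟩
      rw [← inv_pow]
      exact O.pow_mem ((not_NU_iff (hO.le (hxA i))).1 hi).2 _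
  set P := ∏ i, r i with hP
  have hPO : P ∈ O := O.prod_mem fun i _ => (hrO i).1
  have hP0 : P ≠ 0 := Finset.prod_ne_zero_iff.2 fun i _ => (hrO i).2.1
  have hPi : P⁻¹ ∈ O := by
    rw [hP, ← Finset.prod_inv_distrib]
    exact O.prod_mem fun i _ => (hrO i).2.2
  have hprod : ∏ i, x i ^ (-(-(N i : ℤ))) = (∏ i, x i ^ m i) * P := by
    rw [hP, ← Finset.prod_mul_distrib]
    refine Finset.prod_congr rfl fun i _ => ?_
    rw [neg_neg, zpow_natCast, hr]
  set F := f - (a ^ p - a) with hF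
  set h' := F * ∏ i, x i ^ (-(-(N i : ℤ))) with hh'
  have hh'O : h' ∈ O := by
    rw [hh', hprod, ← mul_assoc]
    exact O.mul_mem h2 hPO
  have hmono := mono_mul hx0 (fun i => -(N i : ℤ))
  have heq : F = 0 ^ p + (∏ i, x i ^ (-(N i : ℤ))) * h' := by
    rw [zero_pow hp0, zero_add, hh']
    linear_combination (-F) * hmono
  have heq' : f = a ^ p - a + (∏ i, x i ^ (-(N i : ℤ))) * h' := by
    rw [zero_pow hp0, zero_add] at heq
    rw [← heq, hF]; ring
  rcases h3 with h3 | ⟨θ, hθ, h4, h5⟩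
  · -- all components with positive conductor do not pass through the point
    have hinv : ∀ i, 0 < N i → (x i)⁻¹ ∈ O := by
      intro i hi
      refine ((not_NU_iff (hO.le (hxA i))).1 fun hn => ?_).2
      have := hN i hn
      rw [h3 i] at this
      omega
    obtain ⟨g, hg, hg0, hgi, hgs⟩ := hO.fr'.den (Finset.univ : Finset (Option I))
      (fun o => o.elim h' fun i => if 0 < N i then (x i)⁻¹ else 1) (by
        intro o _
        cases o with
        | none => exact hh'O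
        | some i =>
          change (if 0 < N i then (x i)⁻¹ else 1) ∈ O
          split_ifs with hi
          · exact hinv i hi
          · exact O.one_mem)
    have hmem : ∀ z, g * z ∈ A → z ∈ adj A g⁻¹ := by
      intro z hz
      refine (mem_adj_inv hg hg0).2 ⟨1, ?_⟩
      rw [pow_one, mul_comm]
      exact hz
    refine ⟨g, hg, hg0, hgi, h', hmem _ (hgs none (Finset.mem_univ _)), heq', Or.inl ?_⟩
    intro i hi
    have hi' : 0 < N i := by
      have : (-(N i : ℤ)) < 0 := hi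
      omega
    have h6 := hgs (some i) (Finset.mem_univ _)
    have h7 : g * (if 0 < N i then (x i)⁻¹ else 1) ∈ A := h6
    rw [if_pos hi'] at h7
    exact hmem _ h7
  · have h6 := (not_NU_iff h4).1 h5
    have hθF0 : θ F ≠ 0 := fun h0 => h6.1 (by rw [h0, zero_mul])
    have hu : θ F * ∏ i, x i ^ (-(-(N i : ℤ))) ∈ O := by
      rw [hprod, ← mul_assoc]
      exact O.mul_mem h4 hPO
    have hui : (θ F * ∏ i, x i ^ (-(-(N i : ℤ))))⁻¹ ∈ O := by
      rw [hprod, ← mul_assoc, mul_inv]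
      exact O.mul_mem h6.2 hPi
    obtain ⟨g, hg, hg0, hgi, θ', hNF⟩ := spread_nf hO.fr' hθ hθF0 hx0 hh'O heq hu hui
    exact ⟨g, hg, hg0, hgi, h', hNF.hB, heq', Or.inr ⟨θ', hNF⟩⟩

/-- the logarithmic form has no zeros on the poles -/
lemma NC.ln {p : ℕ} [CharP E p] {B : Subalgebra k E} {I : Type} [Fintype I] {x : I → E}
    (hx0 : ∀ i, x i ≠ 0) (hxB : ∀ i, x i ∈ B) {n : I → ℤ} {f a h : E} (H : NC p B x n f a h)
    (hh : h ∈ B) (κ : Type u) [Field κ] [Algebra k κ] (φ : B →ₐ[k] κ)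
    (hφ : ∃ i, n i < 0 ∧ φ ⟨x i, hxB i⟩ = 0) : ∃ v : LT φ x, om v n hh ≠ 0 := by
  obtain ⟨h1, h2, h3 | ⟨θ, hNF⟩⟩ := H
  · obtain ⟨i, hi, hφi⟩ := hφ
    exfalso
    have h4 : (⟨x i, hxB i⟩ : B) * ⟨(x i)⁻¹, h3 i hi⟩ = 1 :=
      Subtype.ext (mul_inv_cancel₀ (hx0 i))
    have h5 := congrArg φ h4
    rw [map_mul, hφi, zero_mul, map_one] at h5
    exact zero_ne_one h5
  · exact NF.ln hx0 hNF hh κ φ

end

end Pool.Agent.W202.WA
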